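import Pool.Agent.H315R2.EB.Stubs

/-! FLAG: chains extend to complete flags. -/

set_option autoImplicit false

namespace Pool.Agent.H479R2.EB

open Pool.Agent.H315R2.EB

theorem FLAG_proof : St_FLAG := by
  classical
  intro P _ _ m r hr h0 hm hgap S hS
  obtain ⟨C, hC, hSC⟩ := hS.exists_maxChain
  have hbot : (⊥ : P) ∈ C := hC.bot_mem
  have htop : (⊤ : P) ∈ C := hC.top_mem
  have hle : ∀ X : P, r X ≤ m := fun X => hm ▸ hr.monotone le_top
  have htot : ∀ X ∈ C, ∀ Y ∈ C, r X ≤ r Y → X ≤ Y := by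
    intro X hX Y hY h
    rcases hC.1.total hX hY with h1 | h1
    · exact h1
    · rcases h1.lt_or_eq with h2 | h2
      · exact absurd (hr h2) (not_lt.mpr h)
      · exact h2.ge
  have key : ∀ i, i ≤ m → ∃ X, X ∈ C ∧ r X = i := by
    intro i hi
    by_contra hno
    push Not at hno
    have hex : ∃ n, i < n ∧ ∃ X ∈ C, r X = n :=
      ⟨m, lt_of_le_of_ne hi (fun h => hno ⊤ htop (by rw [hm, h])), ⊤, htop, hm⟩
    have hi0 : 0 < i := by
      rcases Nat.eq_zero_or_pos i with h | h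
      · exact absurd (by rw [h0, h]) (hno ⊥ hbot)
      · exact h
    obtain ⟨hB1, B, hB, hrB⟩ := Nat.find_spec hex
    have hBmin : ∀ Y ∈ C, i < r Y → r B ≤ r Y := by
      intro Y hY h
      rw [hrB]
      exact Nat.find_min' hex ⟨h, Y, hY, rfl⟩
    have hA0 : ∃ X ∈ C, r X = Nat.findGreatest (fun n => ∃ X ∈ C, r X = n) (i - 1) :=
      Nat.findGreatest_spec (P := fun n => ∃ X ∈ C, r X = n) (Nat.zero_le (i - 1)) ⟨⊥, hbot, h0⟩
    obtain ⟨A, hA, hrA⟩ := hA0
    have hA1 : r A < i := by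
      have := Nat.findGreatest_le (P := fun n => ∃ X ∈ C, r X = n) (i - 1)
      rw [← hrA] at this
      omega
    have hAmax : ∀ Y ∈ C, r Y < i → r Y ≤ r A := by
      intro Y hY h
      rw [hrA]
      exact Nat.le_findGreatest (P := fun n => ∃ X ∈ C, r X = n) (by omega) ⟨Y, hY, rfl⟩
    have hB2 : i < r B := by rw [hrB]; exact hB1
    obtain ⟨X, hAX, hXB, hrX⟩ := hgap A B i (htot A hA B hB (by omega)) hA1.le hB2.le
    have hch : IsChain (· ≤ ·) (insert X C) := by
      refine hC.1.insert ?_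
      intro Y hY _
      rcases lt_trichotomy (r Y) i with h | h | h
      · exact Or.inr ((htot Y hY A hA (hAmax Y hY h)).trans hAX)
      · exact absurd h (hno Y hY)
      · exact Or.inl (hXB.trans (htot B hB Y hY (hBmin Y hY h)))
    have hXC : X ∈ C := by
      rw [hC.2 hch (Set.subset_insert X C)]
      exact Set.mem_insert X C
    exact hno X hXC hrX
  choose! F hF using key
  refine ⟨F, fun i hi => (hF i hi).2, ?_, ?_⟩
  · intro i j hij hj
    refine htot _ (hF i (hij.trans hj)).1 _ (hF j hj).1 ?_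
    rw [(hF i (hij.trans hj)).2, (hF j hj).2]
    exact hij
  · intro X hX
    refine ⟨r X, hle X, ?_⟩
    have h1 := hF (r X) (hle X)
    exact le_antisymm (htot _ h1.1 _ (hSC hX) h1.2.le) (htot _ (hSC hX) _ h1.1 h1.2.ge)

end Pool.Agent.H479R2.EB
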